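import Pool.Agent.P.MP_708b53_co.Antichain

namespace Pool.Agent.Results.MP_708b53_co.NotWQO

open Pool.Agent.P.MP_708b53_co

theorem result : ∃ S : ℕ → Finset (ℝ × ℝ), (∀ i, InClass 6 (S i)) ∧
    ∀ i j, i ≠ j → ¬ SubConfig (S i) (S j) :=
  exists_antichain

end Pool.Agent.Results.MP_708b53_co.NotWQO
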