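import Pool.Agent.P.MP_708b53_co.Sharp

namespace Pool.Agent.Results.MP_708b53_co.SharpRate

open Pool.Agent.P.MP_708b53_co Filter Topology

theorem result : ∀ k : ℕ, 6 ≤ k → ∃ C : ℝ, 0 < C ∧ ∀ᶠ n : ℕ in atTop,
    ((n : ℝ) / (C * Real.log n)) ^ n ≤ numTypes k n ∧ (numTypes k n : ℝ) ≤ (C * n) ^ n :=
  fun _ hk => sharp_bounds hk

/-- The posed case `k = 6`, as a limit. -/
theorem six :
    Tendsto (fun n : ℕ => Real.log (numTypes 6 n) / (n * Real.log n)) atTop (𝓝 1) :=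
  sharp_limit le_rfl

end Pool.Agent.Results.MP_708b53_co.SharpRate
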